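import Pool.Agent.Run7.h560.AP.Level
import Pool.Agent.Run7.h560.AP.Pure

set_option autoImplicit false

/-!
# Every residue class contains few members of a random integer with a decaying characteristic function
-/

namespace Pool.Agent.Run7.h560.LM

open Finset
open Pool.Agent.R459.Eq
open Pool.Agent.H807R2.Dav
open Pool.Agent.Run7.h560.AP

/-- the sum over all the reduced fractions with the denominators `q`, `q ^ 2 < b ^ K` -/
lemma all_sum (b : ℕ) (hb : 2 ≤ b) (G : ℤ) (hG : G ≠ 0) (A k t₀ : ℕ) (γ H : ℝ) (hγ0 : 0 < γ) (hH : 0 ≤ H)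
    (φ : ℝ → ℂ) (hφ : Dk b G A k t₀ γ H φ)
    (β z : ℝ) (hβ1 : 1 < β) (hz : 0 < z) (hz1 : z ≤ 1) (hz2 : 1 + 2 * b * z = β) (R : ℕ)
    (hR : 1 ≤ z * β ^ (R + 1)) (g0 : ℕ) (hg01 : 1 ≤ g0) (hg0 : γ ^ g0 ≤ 1 / b) (V : ℕ)
    (hV : V = 2 * (A + 1) * (3 * g0 + 1) * (R + 1))
    (K : ℕ) (hK : 1 ≤ K) (hVK : V * K ≤ k) (ht : t₀ ≤ K)
    (T : Finset ℕ) (hT : ∀ q ∈ T, 1 ≤ q ∧ q ^ 2 < b ^ K ∧ Nat.Coprime b q) :
    ∑ q ∈ T, Sq φ q ≤ 2 * ((2 * |G| + 1 : ℤ) * β ^ (2 * K)) + H := by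
  classical
  have hb0 : (0 : ℝ) < b := by exact_mod_cast (by omega : 0 < b)
  have hb1 : (1 : ℝ) < b := by exact_mod_cast (by omega : 1 < b)
  have hβ0 : 0 < β := by linarith
  obtain ⟨L, hL⟩ : ∃ L, L = K / (R + 1) := ⟨_, rfl⟩
  have hL1 : L * (R + 1) ≤ K := by rw [hL]; exact Nat.div_mul_le_self _ _
  have hL2 : K < (L + 1) * (R + 1) := by
    rw [hL, mul_comm]
    exact Nat.lt_mul_div_succ K (by omega)
  have hV1 : 1 ≤ V := by rw [hV]; exact Nat.succ_le_of_lt (by positivity)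
  have hqK : ∀ q ∈ T, q ^ 2 < b ^ K := fun q hq => (hT q hq).2.1
  have hqb : ∀ q ∈ T, q < b ^ K := fun q hq => lt_of_le_of_lt (by nlinarith [(hT q hq).1]) (hqK q hq)
  -- the number of the fractions with few far places
  have hcard : (∑ q ∈ T, ((br b G K L q).card : ℝ)) ≤ (2 * |G| + 1 : ℤ) * β ^ (2 * K) := by
    obtain ⟨T', hT'⟩ : ∃ T' : Finset (ℕ × ℕ), T' = (range (b ^ K) ×ˢ T).filter (fun x => x.1 ∈ br b G K L x.2) := ⟨_, rfl⟩
    have h1 : T'.card = ∑ q ∈ T, (br b G K L q).card := by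
      rw [hT', card_filter, sum_product_right]
      apply sum_congr rfl
      intro q hq
      rw [← card_filter]
      congr 1
      ext a
      rw [mem_filter]
      refine ⟨fun h => h.2, fun h => ⟨?_, h⟩⟩
      unfold br at h
      rw [mem_filter, mem_range] at h
      rw [mem_range]
      exact h.1.trans (hqb q hq)
    have h2 := frac_card b hb G hG K L (Nat.sqrt (b ^ K - 1)) (by
      have h3 := Nat.sqrt_le' (b ^ K - 1)
      have h4 : 0 < b ^ K := by positivity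
      omega) z hz hz1 T' (by
      intro x hx
      rw [hT', mem_filter, mem_product] at hx
      have h3 := hx.2
      unfold br at h3
      rw [mem_filter, mem_range] at h3
      refine ⟨(hT _ hx.1.2).1, ?_, h3.2.1, h3.1, h3.2.2⟩
      rw [Nat.le_sqrt']
      have := hqK _ hx.1.2
      omega)
    rw [hz2] at h2
    have h3 : (1 : ℝ) ≤ z ^ L * β ^ K := by
      calc (1 : ℝ) ≤ (z * β ^ (R + 1)) ^ L := one_le_pow₀ hR
        _ = z ^ L * β ^ ((R + 1) * L) := by rw [mul_pow, ← pow_mul]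
        _ ≤ z ^ L * β ^ K := by
            apply mul_le_mul_of_nonneg_left _ (by positivity)
            exact pow_le_pow_right₀ hβ1.le (by rw [mul_comm]; exact hL1)
    have h4 : (∑ q ∈ T, ((br b G K L q).card : ℝ)) = (T'.card : ℝ) := by rw [h1]; push_cast; rfl
    rw [h4]
    calc (T'.card : ℝ) ≤ T'.card * (z ^ L * β ^ K) := le_mul_of_one_le_right (Nat.cast_nonneg _) h3
      _ = (T'.card * z ^ L) * β ^ K := by ring
      _ ≤ ((2 * |G| + 1 : ℤ) * β ^ K) * β ^ K := mul_le_mul_of_nonneg_right h2 (by positivity)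
      _ = _ := by rw [show 2 * K = K + K by ring, pow_add]; ring
  -- the other fractions
  have hbnd : ∀ q ∈ T, ∀ a, a < q → Nat.Coprime a q → a ∉ vb b G K L V q →
      ‖φ ((a : ℝ) / q)‖ ≤ H * (1 / (b : ℝ)) ^ (3 * K) := by
    intro q hq a ha hc hnv
    have h1 := far_of_not_vb b G K L V q a (hT q hq).1 ha hc hnv
    have h2 := far_mono b G hVK ((a : ℝ) / q)
    have h3 : A * (3 * g0 * K + 1) ≤ far b G k ((a : ℝ) / q) := by
      have h4 : 2 * (A * (3 * g0 * K + 1)) ≤ V * (L + 1) := by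
        calc 2 * (A * (3 * g0 * K + 1)) ≤ 2 * ((A + 1) * ((3 * g0 + 1) * K)) := by
              apply Nat.mul_le_mul_left
              apply Nat.mul_le_mul (by omega)
              nlinarith
          _ ≤ 2 * ((A + 1) * ((3 * g0 + 1) * ((L + 1) * (R + 1)))) := by
              apply Nat.mul_le_mul_left
              apply Nat.mul_le_mul_left
              exact Nat.mul_le_mul_left _ hL2.le
          _ = V * (L + 1) := by rw [hV]; ring
      omega
    refine (hφ.char _ (3 * g0 * K) (by nlinarith) h3).trans ?_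
    apply mul_le_mul_of_nonneg_left _ hH
    calc γ ^ (3 * g0 * K) = (γ ^ g0) ^ (3 * K) := by rw [← pow_mul]; congr 1; ring
      _ ≤ (1 / (b : ℝ)) ^ (3 * K) := pow_le_pow_left₀ (by positivity) hg0 _
  have hSq : ∀ q ∈ T, Sq φ q ≤ (vb b G K L V q).card + q * (H * (1 / (b : ℝ)) ^ (3 * K)) := by
    intro q hq
    unfold Sq
    rw [← sum_filter_add_sum_filter_not _ (fun a => a ∈ vb b G K L V q)]
    apply add_le_add
    · refine (sum_le_card_nsmul _ _ 1 (fun a _ => hφ.one _)).trans ?_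
      rw [nsmul_eq_mul, mul_one, Nat.cast_le]
      apply card_le_card
      intro a ha
      exact (mem_filter.1 ha).2
    · refine (sum_le_card_nsmul _ _ (H * (1 / (b : ℝ)) ^ (3 * K)) (fun a ha => ?_)).trans ?_
      · rw [mem_filter, mem_filter, mem_range] at ha
        exact hbnd q hq a ha.1.1 ha.1.2 ha.2
      · rw [nsmul_eq_mul]
        apply mul_le_mul_of_nonneg_right _ (by positivity)
        rw [Nat.cast_le]
        refine (card_le_card ((filter_subset _ _).trans (filter_subset _ _))).trans ?_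
        rw [card_range]
  have hvb : (∑ q ∈ T, ((vb b G K L V q).card : ℝ)) ≤ 2 * ((2 * |G| + 1 : ℤ) * β ^ (2 * K)) := by
    refine le_trans ?_ (mul_le_mul_of_nonneg_left hcard (by norm_num))
    rw [mul_sum]
    apply sum_le_sum
    intro q hq
    exact_mod_cast vb_card b G K L V q hV1 (hT q hq).1 (hT q hq).2.2
  have hsq : (∑ q ∈ T, (q : ℝ)) ≤ (b : ℝ) ^ (2 * K) := by
    calc (∑ q ∈ T, (q : ℝ)) ≤ ∑ q ∈ range (b ^ K), (q : ℝ) := by
          apply sum_le_sum_of_subset_of_nonneg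
          · intro q hq
            rw [mem_range]
            exact hqb q hq
          · intro _ _ _
            positivity
      _ ≤ ∑ _q ∈ range (b ^ K), (b : ℝ) ^ K := by
          apply sum_le_sum
          intro q hq
          exact_mod_cast (mem_range.1 hq).le
      _ = _ := by rw [sum_const, card_range, nsmul_eq_mul, two_mul, pow_add]; push_cast; rfl
  calc ∑ q ∈ T, Sq φ q ≤ ∑ q ∈ T, (((vb b G K L V q).card : ℝ) + q * (H * (1 / (b : ℝ)) ^ (3 * K))) :=
        sum_le_sum hSq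
    _ = (∑ q ∈ T, ((vb b G K L V q).card : ℝ)) + (∑ q ∈ T, (q : ℝ)) * (H * (1 / (b : ℝ)) ^ (3 * K)) := by
        rw [sum_add_distrib, sum_mul]
    _ ≤ 2 * ((2 * |G| + 1 : ℤ) * β ^ (2 * K)) + (b : ℝ) ^ (2 * K) * (H * (1 / (b : ℝ)) ^ (3 * K)) := by
        apply add_le_add hvb
        exact mul_le_mul_of_nonneg_right hsq (by positivity)
    _ = 2 * ((2 * |G| + 1 : ℤ) * β ^ (2 * K)) + H * (1 / (b : ℝ)) ^ K := by
        have e2 : (b : ℝ) ^ (2 * K) * (1 / (b : ℝ)) ^ (3 * K) = (1 / (b : ℝ)) ^ K := by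
          rw [show 3 * K = 2 * K + K by ring, pow_add, ← mul_assoc, ← mul_pow, mul_one_div_cancel hb0.ne', one_pow, one_mul]
        rw [← e2]
        ring
    _ ≤ _ := by
        have h5 : (1 / (b : ℝ)) ^ K ≤ 1 := pow_le_one₀ (by positivity) (by rw [div_le_one hb0]; exact hb1.le)
        nlinarith

/-- the sum over all the fractions with a denominator is a sum over reduced fractions -/
lemma sum_frac (φ : ℝ → ℂ) (q : ℕ) (hq : 1 ≤ q) : ∑ h ∈ range q, ‖φ ((h : ℝ) / q)‖ ≤ ∑ d ∈ q.divisors, Sq φ d := by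
  classical
  obtain ⟨g, hg⟩ : ∃ g : ℕ → (Σ _ : ℕ, ℕ), g = fun h => ⟨q / Nat.gcd h q, h / Nat.gcd h q⟩ := ⟨_, rfl⟩
  have hg0 : ∀ h, 0 < Nat.gcd h q := fun h => Nat.gcd_pos_of_pos_right _ (by omega)
  have hval : ∀ h, ((g h).2 : ℝ) / (g h).1 = (h : ℝ) / q := by
    intro h
    rw [hg]
    simp only
    have h0 : (0 : ℝ) < Nat.gcd h q := by exact_mod_cast hg0 h
    rw [Nat.cast_div (Nat.gcd_dvd_left h q) h0.ne', Nat.cast_div (Nat.gcd_dvd_right h q) h0.ne']
    rw [div_div_div_cancel_right₀ h0.ne']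
  have hinj : Set.InjOn g (range q : Set ℕ) := by
    intro h _ h' _ heq
    have h1 := hval h
    have h2 := hval h'
    rw [heq] at h1
    rw [h1] at h2
    have hq0 : (q : ℝ) ≠ 0 := by exact_mod_cast (by omega : q ≠ 0)
    field_simp at h2
    exact_mod_cast h2
  calc ∑ h ∈ range q, ‖φ ((h : ℝ) / q)‖ = ∑ h ∈ range q, ‖φ (((g h).2 : ℝ) / (g h).1)‖ := by
        apply sum_congr rfl
        intro h _
        rw [hval]
    _ = ∑ x ∈ (range q).image g, ‖φ ((x.2 : ℝ) / x.1)‖ := (sum_image hinj (f := fun x => ‖φ ((x.2 : ℝ) / x.1)‖)).symm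
    _ ≤ ∑ x ∈ q.divisors.sigma (fun d => (range d).filter (fun a => Nat.Coprime a d)), ‖φ ((x.2 : ℝ) / x.1)‖ := by
        apply sum_le_sum_of_subset_of_nonneg
        · intro x hx
          rw [mem_image] at hx
          obtain ⟨h, hh, rfl⟩ := hx
          rw [mem_range] at hh
          rw [mem_sigma, mem_filter, mem_range, Nat.mem_divisors]
          rw [hg]
          simp only
          refine ⟨⟨Nat.div_dvd_of_dvd (Nat.gcd_dvd_right h q), by omega⟩, ?_, Nat.coprime_div_gcd_div_gcd (hg0 h)⟩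
          exact Nat.div_lt_div_of_lt_of_dvd (Nat.gcd_dvd_right h q) hh
        · intro _ _ _
          exact norm_nonneg _
    _ = _ := by
        rw [sum_sigma]
        rfl

/-- **every residue class is rarely met** -/
theorem cls_bound {ι : Type} (Ω : Finset ι) (w : ι → ℝ) (v : ι → ℤ) (hw : ∀ i ∈ Ω, 0 ≤ w i) (q : ℕ) (hq : 1 ≤ q) (S : ℝ)
    (hS : ∑ d ∈ q.divisors, Sq (ph Ω w v) d ≤ S) (a : ℤ) (X : ι → Prop) [DecidablePred X]
    (hX : ∀ i ∈ Ω, X i → (q : ℤ) ∣ v i - a) : ∑ i ∈ Ω.filter X, w i ≤ S / q := by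
  classical
  have hq0 : (0 : ℝ) < q := by exact_mod_cast hq
  have h1 : ∑ i ∈ Ω.filter X, w i ≤ ∑ i ∈ Ω.filter (fun i => (q : ℤ) ∣ v i - a), w i := by
    apply sum_le_sum_of_subset_of_nonneg
    · intro i hi
      rw [mem_filter] at hi ⊢
      exact ⟨hi.1, hX i hi.1 hi.2⟩
    · intro i hi _
      exact hw i (mem_filter.1 hi).1
  have h2 : ((q * ∑ i ∈ Ω.filter (fun i => (q : ℤ) ∣ v i - a), w i : ℝ) : ℂ) =
      ∑ h ∈ range q, ee (-((h : ℝ) * ((a : ℝ) / q))) * ph Ω w v ((h : ℝ) / q) := by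
    have h3 : ∀ i, ((q * (if (q : ℤ) ∣ v i - a then w i else 0) : ℝ) : ℂ) =
        ∑ h ∈ range q, ee (-((h : ℝ) * ((a : ℝ) / q))) * ((w i : ℂ) * ee ((v i : ℝ) * ((h : ℝ) / q))) := by
      intro i
      have h4 := ee_sum_range q hq (v i - a)
      have h5 : ∑ h ∈ range q, ee (-((h : ℝ) * ((a : ℝ) / q))) * ((w i : ℂ) * ee ((v i : ℝ) * ((h : ℝ) / q))) =
          (w i : ℂ) * ∑ h ∈ range q, ee ((h : ℝ) * (((v i - a : ℤ) : ℝ) / q)) := by
        rw [mul_sum]
        apply sum_congr rfl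
        intro h _
        have h6 : ee ((h : ℝ) * (((v i - a : ℤ) : ℝ) / q)) = ee (-((h : ℝ) * ((a : ℝ) / q))) * ee ((v i : ℝ) * ((h : ℝ) / q)) := by
          rw [← ee_add]
          congr 1
          push_cast
          ring
        rw [h6]
        ring
      rw [h5, h4]
      split_ifs
      · push_cast
        ring
      · simp
    rw [sum_filter, mul_sum, Complex.ofReal_sum]
    simp only [h3]
    rw [sum_comm]
    apply sum_congr rfl
    intro h _
    rw [← mul_sum]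
    rfl
  have h3 : (q : ℝ) * ∑ i ∈ Ω.filter (fun i => (q : ℤ) ∣ v i - a), w i ≤ S := by
    have h4 : (q : ℝ) * ∑ i ∈ Ω.filter (fun i => (q : ℤ) ∣ v i - a), w i ≤
        ‖((q * ∑ i ∈ Ω.filter (fun i => (q : ℤ) ∣ v i - a), w i : ℝ) : ℂ)‖ := by
      rw [Complex.norm_real]
      exact le_abs_self _
    refine h4.trans ?_
    rw [h2]
    refine (norm_sum_le _ _).trans ?_
    refine le_trans ?_ hS
    refine le_trans ?_ (sum_frac (ph Ω w v) q hq)
    apply sum_le_sum
    intro h _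
    rw [norm_mul, norm_ee, one_mul]
  rw [le_div_iff₀ hq0, mul_comm]
  refine le_trans ?_ h3
  exact mul_le_mul_of_nonneg_left h1 hq0.le

end Pool.Agent.Run7.h560.LM
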