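import Pool.Agent.H95R2.Leh.FamLeh

set_option autoImplicit false

/-!
# Divisors of the composite solutions of `φ(n) ∣ n - 1` in short ranges
-/

namespace Pool.Agent.Run7.h560.LM

open Finset
open Pool.Agent.H95R2.Leh

lemma prod_sub_one (y : ℕ) (S : Finset ℕ) (hS : ∀ p ∈ S, y < p) :
    y * ∏ p ∈ S, p ≤ y * ∏ p ∈ S, (p - 1) + S.card * ∏ p ∈ S, p := by
  classical
  induction S using Finset.induction_on with
  | empty => simp
  | insert a s ha ih =>
    rw [prod_insert ha, prod_insert ha, card_insert_of_notMem ha]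
    have ih' := ih (fun p hp => hS p (mem_insert_of_mem hp))
    have h1 : y < a := hS a (mem_insert_self a s)
    obtain ⟨c, rfl⟩ : ∃ c, a = c + 1 := ⟨a - 1, by omega⟩
    rw [Nat.add_sub_cancel]
    have h2 : y * ∏ p ∈ s, p ≤ (c + 1) * ∏ p ∈ s, p := Nat.mul_le_mul_right _ (by omega)
    have h3 : (c + 1) * (y * ∏ p ∈ s, p) ≤ c * (y * ∏ p ∈ s, p) + (c + 1) * ∏ p ∈ s, p := by nlinarith
    have h4 : c * (y * ∏ p ∈ s, p) ≤ c * (y * ∏ p ∈ s, (p - 1) + s.card * ∏ p ∈ s, p) := Nat.mul_le_mul_left _ ih'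
    nlinarith [Nat.zero_le (s.card * ∏ p ∈ s, p)]

/-- a composite solution has a divisor between `y` and `y ^ 2` all of whose prime factors exceed `B` -/
theorem leh_divisor (B n y : ℕ) (h : Leh n) (hy : 2 ≤ y) (hbig : B.factorial * y ≤ n)
    (hlog : 2 * (B.factorial * (Nat.log 2 n + 1)) < y) :
    ∃ J ⊆ n.primeFactors, (∀ p ∈ J, B < p) ∧ y ≤ ∏ p ∈ J, p ∧ ∏ p ∈ J, p ≤ y ^ 2 := by
  classical
  by_contra hcon
  push Not at hcon
  obtain ⟨hsq, hodd, hco⟩ := leh_basic h
  obtain ⟨Q, hQ2, hQ, _⟩ := leh_k h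
  have hn1 : 1 < n := h.1
  have hpr : ∀ p ∈ n.primeFactors, p.Prime := fun p hp => Nat.prime_of_mem_primeFactors hp
  -- the three kinds of primes
  obtain ⟨P0, hP0⟩ : ∃ P0, P0 = n.primeFactors.filter (fun p => p ≤ B) := ⟨_, rfl⟩
  obtain ⟨P1, hP1⟩ : ∃ P1, P1 = (n.primeFactors.filter (fun p => ¬ p ≤ B)).filter (fun p => p < y) := ⟨_, rfl⟩
  obtain ⟨P2, hP2⟩ : ∃ P2, P2 = (n.primeFactors.filter (fun p => ¬ p ≤ B)).filter (fun p => ¬ p < y) := ⟨_, rfl⟩
  have hprod : n = (∏ p ∈ P0, p) * (∏ p ∈ P1, p) * ∏ p ∈ P2, p := by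
    rw [mul_assoc, hP1, hP2, prod_filter_mul_prod_filter_not, hP0, prod_filter_mul_prod_filter_not]
    exact (Nat.prod_primeFactors_of_squarefree hsq).symm
  -- small products
  have hP1s : ∀ J ⊆ P1, ∏ p ∈ J, p < y := by
    intro J
    induction J using Finset.induction_on with
    | empty => intro _; simp; omega
    | insert a s ha ih =>
      intro hJ
      have h1 := ih (fun p hp => hJ (mem_insert_of_mem hp))
      have ha1 := hJ (mem_insert_self a s)
      rw [hP1, mem_filter, mem_filter] at ha1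
      by_contra hge
      push Not at hge
      have h2 := hcon (insert a s) (by
        intro p hp
        have := hJ hp
        rw [hP1, mem_filter, mem_filter] at this
        exact this.1.1) (by
        intro p hp
        have := hJ hp
        rw [hP1, mem_filter, mem_filter] at this
        omega) hge
      rw [prod_insert ha] at h2
      have h3 : a * ∏ p ∈ s, p ≤ y * y := Nat.mul_le_mul ha1.2.le h1.le
      rw [pow_two] at h2
      omega
  have hP2s : ∀ p ∈ P2, y ^ 2 < p := by
    intro p hp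
    rw [hP2, mem_filter, mem_filter] at hp
    have h1 := hcon {p} (by simpa using hp.1.1) (by
      intro q hq
      rw [mem_singleton] at hq
      omega) (by rw [prod_singleton]; omega)
    rwa [prod_singleton] at h1
  have hP0s : ∏ p ∈ P0, p ≤ B.factorial := by
    have h1 : ∏ p ∈ P0, p ≤ ∏ p ∈ Ico 1 (B + 1), p := by
      apply prod_le_prod_of_subset_of_one_le'
      · intro p hp
        rw [hP0, mem_filter] at hp
        rw [mem_Ico]
        have := (hpr p hp.1).one_lt
        omega
      · intro i hi _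
        exact (mem_Ico.1 hi).1
    exact h1.trans (le_of_eq (Finset.prod_Ico_id_eq_factorial B))
  -- the two parts
  obtain ⟨u, hu⟩ : ∃ u, u = (∏ p ∈ P0, p) * (∏ p ∈ P1, p) := ⟨_, rfl⟩
  obtain ⟨t, ht⟩ : ∃ t, t = ∏ p ∈ P2, p := ⟨_, rfl⟩
  have hn : n = u * t := by rw [hprod, hu, ht]
  have hB1 : 1 ≤ B.factorial := B.factorial_pos
  have huB : u < B.factorial * y := by
    rw [hu]
    exact Nat.mul_lt_mul_of_le_of_lt hP0s (hP1s P1 (Subset.refl _)) hB1
  have hu1 : 1 ≤ u := by
    rcases Nat.eq_zero_or_pos u with h0 | h0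
    · rw [h0, zero_mul] at hn
      omega
    · exact h0
  have ht1 : 1 ≤ t := by
    rcases Nat.eq_zero_or_pos t with h0 | h0
    · rw [h0, mul_zero] at hn
      omega
    · exact h0
  have hP2n : P2.Nonempty := by
    by_contra hne
    rw [not_nonempty_iff_eq_empty] at hne
    rw [hne, prod_empty] at ht
    rw [ht, mul_one] at hn
    omega
  have hsqt : Squarefree (u * t) := by rw [← hn]; exact hsq
  have hcut : Nat.Coprime u t := Nat.coprime_of_squarefree_mul hsqt
  have hφ : Nat.totient n = Nat.totient u * Nat.totient t := by rw [hn, Nat.totient_mul hcut]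
  have hP2p : ∀ p ∈ P2, p.Prime := fun p hp => by
    rw [hP2, mem_filter, mem_filter] at hp
    exact hpr p hp.1.1
  have hφt : Nat.totient t = ∏ p ∈ P2, (p - 1) := by
    have hsqt2 : Squarefree t := Squarefree.of_mul_right hsqt
    have h1 := Nat.totient_mul_prod_primeFactors t
    have h2 : t.primeFactors = P2 := by
      rw [ht]
      exact Nat.primeFactors_prod hP2p
    rw [h2, ← ht, mul_comm] at h1
    exact Nat.eq_of_mul_eq_mul_left (by omega) h1
  have hcard : P2.card ≤ Nat.log 2 n := by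
    apply Nat.le_log_of_pow_le (by norm_num)
    calc 2 ^ P2.card ≤ ∏ p ∈ P2, p := by
          apply pow_card_le_prod
          intro p hp
          exact (hP2p p hp).two_le
      _ = t := ht.symm
      _ ≤ n := by rw [hn]; exact Nat.le_mul_of_pos_left t hu1
  have hφt1 : y ^ 2 * t ≤ y ^ 2 * Nat.totient t + P2.card * t := by
    rw [hφt, ht]
    exact prod_sub_one (y ^ 2) P2 hP2s
  obtain ⟨Av, hA⟩ : ∃ Av, Av = Q * Nat.totient u := ⟨_, rfl⟩
  have hAe : u * t = Av * Nat.totient t + 1 := by
    rw [← hn, hA, mul_assoc, ← hφ, ← hQ]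
    omega
  have hφtle : Nat.totient t ≤ t := Nat.totient_le t
  have hφu0 : 0 < Nat.totient u := Nat.totient_pos.2 hu1
  have hφt0 : 0 < Nat.totient t := Nat.totient_pos.2 ht1
  have hyk : 2 * (u * P2.card) < y ^ 2 := by
    calc 2 * (u * P2.card) ≤ 2 * ((B.factorial * y) * (Nat.log 2 n + 1)) := by
          apply Nat.mul_le_mul_left
          exact Nat.mul_le_mul huB.le (by omega)
      _ = (2 * (B.factorial * (Nat.log 2 n + 1))) * y := by ring
      _ < y * y := Nat.mul_lt_mul_of_pos_right hlog (by omega)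
      _ = y ^ 2 := (pow_two y).symm
  have hAle : Av ≤ u := by
    by_contra hlt
    push Not at hlt
    -- `(u + 1) φ(t) < u t`
    have h1 : (u + 1) * Nat.totient t < u * t := by
      have : (u + 1) * Nat.totient t ≤ Av * Nat.totient t := Nat.mul_le_mul_right _ hlt
      omega
    have h2 : (u + 1) * (y ^ 2 * t) ≤ (u + 1) * (y ^ 2 * Nat.totient t + P2.card * t) := Nat.mul_le_mul_left _ hφt1
    have h3 : y ^ 2 * ((u + 1) * Nat.totient t) < y ^ 2 * (u * t) := Nat.mul_lt_mul_of_pos_left h1 (by positivity)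
    have h4 : y ^ 2 * t < (u + 1) * (P2.card * t) := by
      have e1 : (u + 1) * (y ^ 2 * t) = y ^ 2 * (u * t) + y ^ 2 * t := by ring
      have e2 : (u + 1) * (y ^ 2 * Nat.totient t + P2.card * t) = y ^ 2 * ((u + 1) * Nat.totient t) + (u + 1) * (P2.card * t) := by ring
      rw [e1, e2] at h2
      omega
    have h5 : y ^ 2 < (u + 1) * P2.card := by
      have h6 : y ^ 2 * t < ((u + 1) * P2.card) * t := by rw [mul_assoc]; exact h4
      exact Nat.lt_of_mul_lt_mul_right h6
    have h6 : (u + 1) * P2.card ≤ 2 * (u * P2.card) := by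
      have e1 : (u + 1) * P2.card = u * P2.card + 1 * P2.card := by ring
      have e2 : 1 * P2.card ≤ u * P2.card := Nat.mul_le_mul_right _ hu1
      omega
    omega
  have hAge : u ≤ Av := by
    by_contra hlt
    push Not at hlt
    have h1 : (Av + 1) * Nat.totient t ≤ u * Nat.totient t := Nat.mul_le_mul_right _ hlt
    have h2 : u * Nat.totient t ≤ u * t := Nat.mul_le_mul_left _ hφtle
    have h3 : Nat.totient t ≤ 1 := by
      have e1 : (Av + 1) * Nat.totient t = Av * Nat.totient t + Nat.totient t := by ring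
      omega
    have h4 : Nat.totient t = 1 := by omega
    rw [Nat.totient_eq_one_iff] at h4
    obtain ⟨p, hp⟩ := hP2n
    have h5 : p ∣ t := by rw [ht]; exact dvd_prod_of_mem _ hp
    have h6 := Nat.le_of_dvd ht1 h5
    have h7 := hP2s p hp
    have h8 : 4 ≤ y ^ 2 := by nlinarith
    omega
  have hAu : Av = u := le_antisymm hAle hAge
  have hφdvd : Nat.totient u ∣ u := ⟨Q, (hAu.symm.trans hA).trans (mul_comm _ _)⟩
  have hcou : Nat.Coprime u (Nat.totient u) := by
    apply Nat.Coprime.coprime_dvd_left ⟨t, hn⟩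
    apply hco.coprime_dvd_right
    rw [hφ]
    exact dvd_mul_right _ _
  have hφ1 : Nat.totient u = 1 := Nat.Coprime.eq_one_of_dvd hcou.symm hφdvd
  have hu12 := Nat.totient_eq_one_iff.1 hφ1
  rcases hu12 with h1 | h1
  · rw [hφ1, mul_one] at hA
    omega
  · apply Nat.not_even_iff_odd.2 hodd
    rw [hn, h1]
    exact even_two_mul t

end Pool.Agent.Run7.h560.LM
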