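import Mathlib

set_option autoImplicit false

/-!
# The part of an integer which is composed of large primes, and a sum over squarefree integers
-/

namespace Pool.Agent.Run7.h560.LM

open Finset

/-- the part of `n` which is composed of the primes `> B` -/
def cp (B n : ℕ) : ℕ := ∏ p ∈ n.primeFactors.filter (fun p => ¬ p ≤ B), p ^ n.factorization p

/-- the part of `n` which is composed of the primes `≤ B` -/
def sp (B n : ℕ) : ℕ := ∏ p ∈ n.primeFactors.filter (fun p => p ≤ B), p ^ n.factorization p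

lemma sp_mul_cp (B n : ℕ) (hn : n ≠ 0) : sp B n * cp B n = n := by
  unfold sp cp
  rw [prod_filter_mul_prod_filter_not]
  exact Nat.factorization_prod_pow_eq_self hn

lemma cp_prime (B n p : ℕ) (hp : p.Prime) (h : p ∣ cp B n) : B < p := by
  unfold cp at h
  rw [Nat.Prime.prime hp |>.dvd_finsetProd_iff] at h
  obtain ⟨q, hq, hpq⟩ := h
  rw [mem_filter] at hq
  have h1 := hp.dvd_of_dvd_pow hpq
  rw [Nat.prime_dvd_prime_iff_eq hp (Nat.prime_of_mem_primeFactors hq.1)] at h1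
  omega

lemma sp_prime (B n p : ℕ) (hp : p.Prime) (h : p ∣ sp B n) : p ≤ B := by
  unfold sp at h
  rw [Nat.Prime.prime hp |>.dvd_finsetProd_iff] at h
  obtain ⟨q, hq, hpq⟩ := h
  rw [mem_filter] at hq
  have h1 := hp.dvd_of_dvd_pow hpq
  rw [Nat.prime_dvd_prime_iff_eq hp (Nat.prime_of_mem_primeFactors hq.1)] at h1
  omega

lemma sp_smooth (B n : ℕ) (hn : n ≠ 0) : sp B n ∈ Nat.smoothNumbers (B + 1) := by
  rw [Nat.mem_smoothNumbers']
  intro p hp h
  have := sp_prime B n p hp h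
  omega

/-- the inverse square root -/
noncomputable def isq : ℕ →* ℝ where
  toFun n := (Real.sqrt n)⁻¹
  map_one' := by simp
  map_mul' m n := by
    rw [Nat.cast_mul, Real.sqrt_mul (Nat.cast_nonneg m), mul_inv]

lemma isq_nonneg (n : ℕ) : 0 ≤ isq n := inv_nonneg.2 (Real.sqrt_nonneg _)

lemma smooth_sum (B : ℕ) : ∃ K : ℝ, 0 < K ∧ ∀ T : Finset ℕ, (∀ s ∈ T, s ∈ Nat.smoothNumbers (B + 1)) →
    ∑ s ∈ T, isq s ≤ K := by
  classical
  have h1 := (EulerProduct.summable_and_hasSum_smoothNumbers_prod_primesBelow_geometric (f := isq) (by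
    intro p hp
    have hp1 : (1 : ℝ) < p := by exact_mod_cast hp.one_lt
    rw [Real.norm_of_nonneg (isq_nonneg p)]
    show (Real.sqrt p)⁻¹ < 1
    apply inv_lt_one_of_one_lt₀
    rw [Real.lt_sqrt (by norm_num)]
    simpa using hp1) (B + 1)).1
  have h2 : Summable (fun m : (B + 1).smoothNumbers => isq m) := by
    refine h1.congr (fun m => ?_)
    rw [Real.norm_of_nonneg (isq_nonneg _)]
  obtain ⟨Z, hZ⟩ : ∃ Z, Z = ∑' m : (B + 1).smoothNumbers, isq m := ⟨_, rfl⟩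
  have hZ0 : 0 ≤ Z := by rw [hZ]; exact tsum_nonneg (fun m => isq_nonneg _)
  refine ⟨Z + 1, by linarith, fun T hT => ?_⟩
  have h3 : ∑ s ∈ T, isq s = ∑ m ∈ T.subtype (fun s => s ∈ (B + 1).smoothNumbers), isq m := by
    rw [Finset.sum_subtype_of_mem (fun s => isq s) hT]
  rw [h3]
  have h4 := h2.sum_le_tsum (T.subtype (fun s => s ∈ (B + 1).smoothNumbers)) (fun m _ => isq_nonneg _)
  linarith

lemma zeta_sum : ∃ K : ℝ, 0 < K ∧ ∀ T : Finset ℕ, ∑ r ∈ T, isq r * (1 / (r : ℝ)) ≤ K := by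
  have h1 : Summable (fun r : ℕ => isq r * (1 / (r : ℝ))) := by
    have h2 : Summable (fun n : ℕ => 1 / (n : ℝ) ^ (3 / 2 : ℝ)) := Real.summable_one_div_nat_rpow.2 (by norm_num)
    refine h2.congr (fun n => ?_)
    rcases Nat.eq_zero_or_pos n with h0 | h0
    · rw [h0]
      simp
    · have hn : (0 : ℝ) < n := by exact_mod_cast h0
      show 1 / (n : ℝ) ^ (3 / 2 : ℝ) = (Real.sqrt n)⁻¹ * (1 / (n : ℝ))
      rw [show (3 / 2 : ℝ) = 1 / 2 + 1 by norm_num, Real.rpow_add hn, Real.rpow_one, Real.sqrt_eq_rpow]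
      field_simp
  obtain ⟨Z, hZ⟩ : ∃ Z, Z = ∑' r : ℕ, isq r * (1 / (r : ℝ)) := ⟨_, rfl⟩
  have hnn : ∀ r : ℕ, 0 ≤ isq r * (1 / (r : ℝ)) := fun r => mul_nonneg (isq_nonneg r) (by positivity)
  have hZ0 : 0 ≤ Z := by rw [hZ]; exact tsum_nonneg hnn
  refine ⟨Z + 1, by linarith, fun T => ?_⟩
  have h4 := h1.sum_le_tsum T (fun r _ => hnn r)
  linarith

/-- the reciprocals of `√n cp(n)` are summable -/
lemma cp_sum (B : ℕ) : ∃ K : ℝ, 0 < K ∧ ∀ T : Finset ℕ, (∀ n ∈ T, n ≠ 0) →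
    ∑ n ∈ T, isq n * (1 / (cp B n : ℝ)) ≤ K := by
  classical
  obtain ⟨K₁, hK₁, h1⟩ := smooth_sum B
  obtain ⟨K₂, hK₂, h2⟩ := zeta_sum
  refine ⟨K₁ * K₂, by positivity, fun T hT => ?_⟩
  have hinj : Set.InjOn (fun n => (sp B n, cp B n)) (T : Set ℕ) := by
    intro n hn m hm h
    have h3 := sp_mul_cp B n (hT n hn)
    have h4 := sp_mul_cp B m (hT m hm)
    have h5 : sp B n = sp B m := congrArg Prod.fst h
    have h6 : cp B n = cp B m := congrArg Prod.snd h
    rw [← h3, ← h4, h5, h6]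
  calc ∑ n ∈ T, isq n * (1 / (cp B n : ℝ)) = ∑ n ∈ T, isq (sp B n) * (isq (cp B n) * (1 / (cp B n : ℝ))) := by
        apply sum_congr rfl
        intro n hn
        rw [← mul_assoc, ← map_mul, sp_mul_cp B n (hT n hn)]
    _ = ∑ x ∈ T.image (fun n => (sp B n, cp B n)), isq x.1 * (isq x.2 * (1 / (x.2 : ℝ))) :=
        (sum_image hinj (f := fun x : ℕ × ℕ => isq x.1 * (isq x.2 * (1 / (x.2 : ℝ))))).symm
    _ ≤ ∑ x ∈ (T.image (sp B)) ×ˢ (T.image (cp B)), isq x.1 * (isq x.2 * (1 / (x.2 : ℝ))) := by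
        apply sum_le_sum_of_subset_of_nonneg
        · intro x hx
          rw [mem_image] at hx
          obtain ⟨n, hn, rfl⟩ := hx
          rw [mem_product]
          exact ⟨mem_image_of_mem _ hn, mem_image_of_mem _ hn⟩
        · intro x _ _
          exact mul_nonneg (isq_nonneg _) (mul_nonneg (isq_nonneg _) (by positivity))
    _ = (∑ s ∈ T.image (sp B), isq s) * ∑ r ∈ T.image (cp B), isq r * (1 / (r : ℝ)) := by
        rw [sum_product, sum_mul_sum]
    _ ≤ K₁ * K₂ := by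
        apply mul_le_mul (h1 _ ?_) (h2 _) (sum_nonneg fun r _ => mul_nonneg (isq_nonneg _) (by positivity)) hK₁.le
        intro s hs
        rw [mem_image] at hs
        obtain ⟨n, hn, rfl⟩ := hs
        exact sp_smooth B n (hT n hn)

/-- the sum over the squarefree integers -/
theorem sqf_sum (B : ℕ) : ∃ K : ℝ, 0 < K ∧ ∀ P : Finset ℕ, (∀ p ∈ P, 2 ≤ p) → ∀ y : ℝ, 0 < y → ∀ 𝒥 : Finset (Finset ℕ),
    (∀ J ∈ 𝒥, J ⊆ P ∧ y ≤ ∏ p ∈ J, (p : ℝ)) →
    ∑ J ∈ 𝒥, 1 / (((∏ p ∈ J, p * cp B (p - 1) : ℕ) : ℝ)) ≤ K / Real.sqrt y := by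
  classical
  obtain ⟨K, hK, h⟩ := cp_sum B
  refine ⟨Real.exp K, Real.exp_pos _, fun P hP y hy 𝒥 hJ => ?_⟩
  obtain ⟨g, hg⟩ : ∃ g : ℕ → ℝ, g = fun p => isq p * (1 / (cp B (p - 1) : ℝ)) := ⟨_, rfl⟩
  have hg0 : ∀ p, 0 ≤ g p := fun p => by rw [hg]; exact mul_nonneg (isq_nonneg _) (by positivity)
  have hsum : ∑ p ∈ P, g p ≤ K := by
    have h1 : ∑ p ∈ P, g p ≤ ∑ p ∈ P, isq (p - 1) * (1 / (cp B (p - 1) : ℝ)) := by
      apply sum_le_sum
      intro p hp
      rw [hg]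
      simp only
      apply mul_le_mul_of_nonneg_right _ (by positivity)
      show (Real.sqrt (p : ℕ))⁻¹ ≤ (Real.sqrt ((p - 1 : ℕ) : ℝ))⁻¹
      have h2 : (0 : ℝ) < ((p - 1 : ℕ) : ℝ) := by
        have := hP p hp
        exact_mod_cast (by omega : 0 < p - 1)
      apply inv_anti₀ (Real.sqrt_pos.2 h2)
      apply Real.sqrt_le_sqrt
      exact_mod_cast Nat.sub_le p 1
    refine h1.trans ?_
    have h2 : ∑ p ∈ P, isq (p - 1) * (1 / (cp B (p - 1) : ℝ)) = ∑ n ∈ P.image (fun p => p - 1), isq n * (1 / (cp B n : ℝ)) := by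
      rw [sum_image]
      intro p hp q hq hpq
      have h3 := hP p hp
      have h4 := hP q hq
      simp only at hpq
      omega
    rw [h2]
    apply h
    intro n hn
    rw [mem_image] at hn
    obtain ⟨p, hp, rfl⟩ := hn
    have := hP p hp
    omega
  have hterm : ∀ J ∈ 𝒥, 1 / (((∏ p ∈ J, p * cp B (p - 1) : ℕ) : ℝ)) ≤ (1 / Real.sqrt y) * ∏ p ∈ J, g p := by
    intro J hJJ
    obtain ⟨hJP, hJy⟩ := hJ J hJJ
    have h1 : 1 / (((∏ p ∈ J, p * cp B (p - 1) : ℕ) : ℝ)) = isq (∏ p ∈ J, p) * ∏ p ∈ J, g p := by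
      rw [map_prod, ← prod_mul_distrib]
      push_cast
      rw [one_div, ← prod_inv_distrib]
      apply prod_congr rfl
      intro p hp
      rw [hg]
      simp only
      rw [← mul_assoc]
      have hp0 : (0 : ℝ) ≤ p := Nat.cast_nonneg p
      have h2 : isq p * isq p = (p : ℝ)⁻¹ := by
        show (Real.sqrt p)⁻¹ * (Real.sqrt p)⁻¹ = _
        rw [← mul_inv, Real.mul_self_sqrt hp0]
      rw [h2, mul_inv, one_div]
    rw [h1]
    apply mul_le_mul_of_nonneg_right _ (prod_nonneg fun p _ => hg0 p)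
    show (Real.sqrt ((∏ p ∈ J, p : ℕ) : ℝ))⁻¹ ≤ 1 / Real.sqrt y
    rw [one_div]
    apply inv_anti₀ (Real.sqrt_pos.2 hy)
    apply Real.sqrt_le_sqrt
    push_cast
    exact hJy
  calc ∑ J ∈ 𝒥, 1 / (((∏ p ∈ J, p * cp B (p - 1) : ℕ) : ℝ)) ≤ ∑ J ∈ 𝒥, (1 / Real.sqrt y) * ∏ p ∈ J, g p := sum_le_sum hterm
    _ = (1 / Real.sqrt y) * ∑ J ∈ 𝒥, ∏ p ∈ J, g p := by rw [mul_sum]
    _ ≤ (1 / Real.sqrt y) * ∑ J ∈ P.powerset, ∏ p ∈ J, g p := by
        apply mul_le_mul_of_nonneg_left _ (by positivity)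
        apply sum_le_sum_of_subset_of_nonneg
        · intro J hJJ
          rw [mem_powerset]
          exact (hJ J hJJ).1
        · intro J _ _
          exact prod_nonneg fun p _ => hg0 p
    _ = (1 / Real.sqrt y) * ∏ p ∈ P, (1 + g p) := by rw [prod_one_add]
    _ ≤ (1 / Real.sqrt y) * Real.exp K := by
        apply mul_le_mul_of_nonneg_left _ (by positivity)
        calc ∏ p ∈ P, (1 + g p) ≤ ∏ p ∈ P, Real.exp (g p) := by
              apply prod_le_prod
              · intro p _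
                have := hg0 p
                linarith
              · intro p _
                have := Real.add_one_le_exp (g p)
                linarith
          _ = Real.exp (∑ p ∈ P, g p) := by rw [Real.exp_sum]
          _ ≤ _ := Real.exp_le_exp.2 hsum
    _ = _ := by ring

end Pool.Agent.Run7.h560.LM
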