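import Pool.Agent.Run7.h560.AP.Gold2
import Pool.Agent.Run7.h560.LM.Cls
import Pool.Agent.Run7.h560.LM.Smo
import Pool.Agent.Run7.h560.LM.Dvr

set_option autoImplicit false

/-!
# The composite solutions of `φ(l) ∣ l - 1` in the translates of automatic sets
-/

namespace Pool.Agent.Run7.h560.LM

open Finset
open Pool.Agent.R459.Eq
open Pool.Agent.H807R2.Dav
open Pool.Agent.TH872.Mir (Far farCount)
open Pool.Agent.W93.AU
open Pool.Agent.H491R4.AF (mixw mixw_sum mixw_char char_poly cB cB_pos cB_le far_gc)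
open Pool.Agent.Run7.h560.AP
open Pool.Agent.H95R2.Leh (Leh leh_basic)

variable {σ : Type}

/-- the modulus attached to a set of primes -/
def qJ (B : ℕ) (J : Finset ℕ) : ℕ := ∏ p ∈ J, p * cp B (p - 1)

lemma cp_le (B n : ℕ) (hn : n ≠ 0) : cp B n ≤ n := by
  have h := sp_mul_cp B n hn
  have h1 : 1 ≤ sp B n := by
    rcases Nat.eq_zero_or_pos (sp B n) with h0 | h0
    · rw [h0, zero_mul] at h
      omega
    · exact h0
  calc cp B n = 1 * cp B n := (one_mul _).symm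
    _ ≤ sp B n * cp B n := Nat.mul_le_mul_right _ h1
    _ = n := h

lemma cp_dvd (B n : ℕ) (hn : n ≠ 0) : cp B n ∣ n := ⟨sp B n, by rw [mul_comm]; exact (sp_mul_cp B n hn).symm⟩

lemma cp_pos (B n : ℕ) (hn : n ≠ 0) : 1 ≤ cp B n := Nat.pos_of_dvd_of_pos (cp_dvd B n hn) (by omega)

lemma qJ_pos (B : ℕ) (J : Finset ℕ) (hJ : ∀ p ∈ J, p.Prime ∧ B < p) : 1 ≤ qJ B J := by
  unfold qJ
  apply Nat.succ_le_of_lt
  apply Finset.prod_pos
  intro p hp
  have := (hJ p hp).1.two_le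
  exact Nat.mul_pos (by omega) (cp_pos B (p - 1) (by omega))

lemma qJ_le (B : ℕ) (J : Finset ℕ) (hJ : ∀ p ∈ J, p.Prime ∧ B < p) : qJ B J ≤ (∏ p ∈ J, p) ^ 2 := by
  unfold qJ
  rw [← prod_pow]
  apply prod_le_prod'
  intro p hp
  have h1 := (hJ p hp).1.two_le
  have h2 := cp_le B (p - 1) (by omega)
  rw [pow_two]
  exact Nat.mul_le_mul_left _ (by omega)

lemma qJ_coprime (B : ℕ) (hB : 1 ≤ B) (J : Finset ℕ) (hJ : ∀ p ∈ J, p.Prime ∧ B < p) : Nat.Coprime B (qJ B J) := by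
  unfold qJ
  apply Nat.Coprime.prod_right
  intro p hp
  obtain ⟨h1, h2⟩ := hJ p hp
  apply Nat.Coprime.mul_right
  · exact (Nat.coprime_of_lt_prime (by omega) h2 h1).symm
  · apply Nat.coprime_of_dvd
    intro q hq hqB hqc
    have h3 := cp_prime B (p - 1) q hq hqc
    have h4 := Nat.le_of_dvd (by omega) hqB
    omega

/-- the classes of the solutions -/
lemma qJ_dvd (B : ℕ) (J : Finset ℕ) (hJ : ∀ p ∈ J, p.Prime ∧ B < p) (l l₀ : ℕ) (h : Leh l) (h₀ : Leh l₀)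
    (hl : J ⊆ l.primeFactors) (hl₀ : J ⊆ l₀.primeFactors) : ((qJ B J : ℕ) : ℤ) ∣ (l : ℤ) - l₀ := by
  classical
  have key : ∀ n : ℕ, Leh n → J ⊆ n.primeFactors → (∏ p ∈ J, p) ∣ n ∧ (∏ p ∈ J, cp B (p - 1)) ∣ n - 1 := by
    intro n hn hJn
    obtain ⟨hsq, _, _⟩ := leh_basic hn
    constructor
    · calc (∏ p ∈ J, p) ∣ ∏ p ∈ n.primeFactors, p := prod_dvd_prod_of_subset _ _ _ hJn
        _ = n := Nat.prod_primeFactors_of_squarefree hsq
    · refine dvd_trans ?_ hn.2.2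
      have h1 : (∏ p ∈ J, cp B (p - 1)) ∣ ∏ p ∈ J, (p - 1) := by
        apply prod_dvd_prod_of_dvd
        intro p hp
        have := (hJ p hp).1.two_le
        exact cp_dvd B (p - 1) (by omega)
      have h2 : (∏ p ∈ J, (p - 1)) ∣ ∏ p ∈ n.primeFactors, (p - 1) := prod_dvd_prod_of_subset _ _ _ hJn
      have h3 : Nat.totient n = ∏ p ∈ n.primeFactors, (p - 1) := by
        have h4 := Nat.totient_mul_prod_primeFactors n
        rw [Nat.prod_primeFactors_of_squarefree hsq, mul_comm] at h4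
        exact Nat.eq_of_mul_eq_mul_left (by have := hn.1; omega) h4
      rw [h3]
      exact h1.trans h2
  obtain ⟨a1, a2⟩ := key l h hl
  obtain ⟨b1, b2⟩ := key l₀ h₀ hl₀
  have e : qJ B J = (∏ p ∈ J, p) * ∏ p ∈ J, cp B (p - 1) := by
    unfold qJ
    rw [prod_mul_distrib]
  have hc : Nat.Coprime (∏ p ∈ J, p) (∏ p ∈ J, cp B (p - 1)) := by
    have h5 : Nat.Coprime l₀ (l₀ - 1) := by
      obtain ⟨m, rfl⟩ : ∃ m, l₀ = m + 1 := ⟨l₀ - 1, by have := h₀.1; omega⟩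
      simp
    exact Nat.Coprime.coprime_dvd_left b1 (Nat.Coprime.coprime_dvd_right b2 h5)
  rw [e]
  push_cast
  apply IsCoprime.mul_dvd
  · have := Nat.isCoprime_iff_coprime.2 hc
    push_cast at this
    exact this
  · have c1 : (((∏ p ∈ J, p : ℕ)) : ℤ) ∣ l := Int.natCast_dvd_natCast.2 a1
    have c2 : (((∏ p ∈ J, p : ℕ)) : ℤ) ∣ l₀ := Int.natCast_dvd_natCast.2 b1
    have := dvd_sub c1 c2
    push_cast at this
    exact this
  · have c1 : (((∏ p ∈ J, cp B (p - 1) : ℕ)) : ℤ) ∣ ((l - 1 : ℕ) : ℤ) := Int.natCast_dvd_natCast.2 a2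
    have c2 : (((∏ p ∈ J, cp B (p - 1) : ℕ)) : ℤ) ∣ ((l₀ - 1 : ℕ) : ℤ) := Int.natCast_dvd_natCast.2 b2
    have c3 := dvd_sub c1 c2
    rw [Nat.cast_sub h.1.le, Nat.cast_sub h₀.1.le] at c3
    push_cast at c3
    have c4 : (l : ℤ) - l₀ = (l : ℤ) - 1 - ((l₀ : ℤ) - 1) := by ring
    rw [c4]
    exact c3

/-- the weights of the solutions -/
lemma weight_bound (B j : ℕ) (hB : 2 ≤ B) (Ω : Finset ℕ) (w : ℕ → ℝ) (hw : ∀ i ∈ Ω, 0 ≤ w i) (S K₀ : ℝ) (hS0 : 0 ≤ S)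
    (hS : ∀ T : Finset ℕ, (∀ q ∈ T, 1 ≤ q ∧ q ^ 2 < B ^ (8 * j + 1) ∧ Nat.Coprime B q) →
      ∑ q ∈ T, Sq (ph Ω w (fun u : ℕ => (u : ℤ))) q ≤ S)
    (hK₀ : ∀ P : Finset ℕ, (∀ p ∈ P, 2 ≤ p) → ∀ y : ℝ, 0 < y → ∀ 𝒥 : Finset (Finset ℕ),
      (∀ J ∈ 𝒥, J ⊆ P ∧ y ≤ ∏ p ∈ J, (p : ℝ)) →
      ∑ J ∈ 𝒥, 1 / (((∏ p ∈ J, p * cp B (p - 1) : ℕ) : ℝ)) ≤ K₀ / Real.sqrt y)
    (h : ℤ) (X : ℕ → Prop) [DecidablePred X] (hX : ∀ u, X u → ∃ l : ℕ, (l : ℤ) = u + h ∧ Leh l ∧ B.factorial * B ^ j ≤ l ∧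
      2 * (B.factorial * (Nat.log 2 l + 1)) < B ^ j) (hj : 1 ≤ j) :
    ∑ u ∈ Ω.filter X, w u ≤ S * (K₀ / Real.sqrt ((B : ℝ) ^ j)) := by
  classical
  obtain ⟨y, hy⟩ : ∃ y, y = B ^ j := ⟨_, rfl⟩
  have hy2 : 2 ≤ y := by
    rw [hy]
    calc 2 ≤ B := hB
      _ = B ^ 1 := (pow_one _).symm
      _ ≤ B ^ j := Nat.pow_le_pow_right (by omega) hj
  obtain ⟨P, hP⟩ : ∃ P : Finset ℕ, P = (range (y ^ 2 + 1)).filter (fun p => p.Prime ∧ B < p) := ⟨_, rfl⟩
  obtain ⟨𝒥, h𝒥⟩ : ∃ 𝒥 : Finset (Finset ℕ), 𝒥 = P.powerset.filter (fun J => y ≤ ∏ p ∈ J, p ∧ ∏ p ∈ J, p ≤ y ^ 2) := ⟨_, rfl⟩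
  have hPp : ∀ p ∈ P, p.Prime ∧ B < p := by
    intro p hp
    rw [hP, mem_filter] at hp
    exact hp.2
  have hJp : ∀ J ∈ 𝒥, ∀ p ∈ J, p.Prime ∧ B < p := by
    intro J hJ p hp
    rw [h𝒥, mem_filter, mem_powerset] at hJ
    exact hPp p (hJ.1 hp)
  obtain ⟨XJ, hXJ⟩ : ∃ XJ : Finset ℕ → ℕ → Prop, XJ = fun (J : Finset ℕ) (u : ℕ) =>
      ∃ l : ℕ, (l : ℤ) = (u : ℤ) + h ∧ Leh l ∧ J ⊆ l.primeFactors := ⟨_, rfl⟩
  have hcov : ∀ u, X u → ∃ J ∈ 𝒥, XJ J u := by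
    intro u hu
    obtain ⟨l, hl, hL, hbig, hlog⟩ := hX u hu
    rw [← hy] at hbig hlog
    obtain ⟨J, hJ1, hJ2, hJ3, hJ4⟩ := leh_divisor B l y hL hy2 hbig hlog
    refine ⟨J, ?_, ?_⟩
    · rw [h𝒥, mem_filter, mem_powerset]
      refine ⟨fun p hp => ?_, hJ3, hJ4⟩
      rw [hP, mem_filter, mem_range]
      have hpp := Nat.prime_of_mem_primeFactors (hJ1 hp)
      have h1 : p ∣ ∏ p ∈ J, p := dvd_prod_of_mem _ hp
      have h2 : 0 < ∏ p ∈ J, p := by omega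
      have h3 := Nat.le_of_dvd h2 h1
      exact ⟨by omega, hpp, hJ2 p hp⟩
    · rw [hXJ]
      exact ⟨l, hl, hL, hJ1⟩
  have hone : ∀ J ∈ 𝒥, ∑ u ∈ Ω.filter (XJ J), w u ≤ S * (1 / ((qJ B J : ℕ) : ℝ)) := by
    intro J hJ
    have hJ' := hJp J hJ
    have hq1 := qJ_pos B J hJ'
    have hJ2 : ∏ p ∈ J, p ≤ y ^ 2 := by
      rw [h𝒥, mem_filter] at hJ
      exact hJ.2.2
    by_cases hne : ∃ u₀ ∈ Ω, XJ J u₀
    · obtain ⟨u₀, _, hu₀⟩ := hne
      rw [hXJ] at hu₀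
      obtain ⟨l₀, hl₀, hL₀, hJl₀⟩ := hu₀
      have h1 := cls_bound Ω w (fun u : ℕ => (u : ℤ)) hw (qJ B J) hq1 S (hS _ (by
        intro d hd
        rw [Nat.mem_divisors] at hd
        have hd1 : d ≤ qJ B J := Nat.le_of_dvd hq1 hd.1
        refine ⟨Nat.pos_of_dvd_of_pos hd.1 hq1, ?_, (qJ_coprime B (by omega) J hJ').coprime_dvd_right hd.1⟩
        calc d ^ 2 ≤ (qJ B J) ^ 2 := Nat.pow_le_pow_left hd1 2
          _ ≤ ((∏ p ∈ J, p) ^ 2) ^ 2 := Nat.pow_le_pow_left (qJ_le B J hJ') 2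
          _ ≤ ((y ^ 2) ^ 2) ^ 2 := Nat.pow_le_pow_left (Nat.pow_le_pow_left hJ2 2) 2
          _ = B ^ (8 * j) := by rw [hy]; ring
          _ < B ^ (8 * j + 1) := Nat.pow_lt_pow_right (by omega) (by omega))) (u₀ : ℤ) (XJ J) (by
        intro u _ hu
        rw [hXJ] at hu
        obtain ⟨l, hl, hL, hJl⟩ := hu
        have h2 := qJ_dvd B J hJ' l l₀ hL hL₀ hJl hJl₀
        have h3 : (u : ℤ) - u₀ = (l : ℤ) - l₀ := by rw [hl, hl₀]; ring
        rw [h3]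
        exact h2)
      calc ∑ u ∈ Ω.filter (XJ J), w u ≤ S / ((qJ B J : ℕ) : ℝ) := h1
        _ = _ := by ring
    · push Not at hne
      rw [filter_false_of_mem (fun u hu => hne u hu), sum_empty]
      positivity
  calc ∑ u ∈ Ω.filter X, w u ≤ ∑ u ∈ Ω.filter X, ∑ J ∈ 𝒥, (if XJ J u then w u else 0) := by
        apply sum_le_sum
        intro u hu
        rw [mem_filter] at hu
        obtain ⟨J, hJ, hJu⟩ := hcov u hu.2
        have h1 := single_le_sum (f := fun J => if XJ J u then w u else 0) (s := 𝒥) (fun J _ => by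
          split_ifs
          · exact hw u hu.1
          · exact le_rfl) hJ
        rwa [if_pos hJu] at h1
    _ ≤ ∑ u ∈ Ω, ∑ J ∈ 𝒥, (if XJ J u then w u else 0) := by
        apply sum_le_sum_of_subset_of_nonneg (filter_subset _ _)
        intro u hu _
        apply sum_nonneg
        intro J _
        split_ifs
        · exact hw u hu
        · exact le_rfl
    _ = ∑ J ∈ 𝒥, ∑ u ∈ Ω.filter (XJ J), w u := by
        rw [sum_comm]
        apply sum_congr rfl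
        intro J _
        rw [sum_filter]
    _ ≤ ∑ J ∈ 𝒥, S * (1 / ((qJ B J : ℕ) : ℝ)) := sum_le_sum hone
    _ = S * ∑ J ∈ 𝒥, 1 / ((qJ B J : ℕ) : ℝ) := by rw [mul_sum]
    _ ≤ S * (K₀ / Real.sqrt ((B : ℝ) ^ j)) := by
        apply mul_le_mul_of_nonneg_left _ hS0
        apply hK₀ P (fun p hp => (hPp p hp).1.two_le) ((B : ℝ) ^ j) (by positivity) 𝒥
        intro J hJ
        rw [h𝒥, mem_filter, mem_powerset] at hJ
        refine ⟨hJ.1, ?_⟩
        have h1 := hJ.2.1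
        rw [hy] at h1
        have h2 : ((B ^ j : ℕ) : ℝ) ≤ ((∏ p ∈ J, p : ℕ) : ℝ) := Nat.cast_le.2 h1
        push_cast at h2
        exact h2

/-- an exponential exceeds a polynomial -/
lemma poly_exp (B : ℕ) (hB : 2 ≤ B) (W E : ℕ) : ∃ j₁ : ℕ, ∀ j : ℕ, j₁ ≤ j → (W * (j + 1)) ^ E ≤ B ^ j := by
  have hB1 : (1 : ℝ) < B := by exact_mod_cast (by omega : 1 < B)
  have h1 := (tendsto_pow_const_div_const_pow_of_one_lt E hB1).eventually (gt_mem_nhds (show (0 : ℝ) < 1 / ((2 * W : ℝ) ^ E + 1) by positivity))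
  obtain ⟨j₀, hj₀⟩ := Filter.eventually_atTop.1 h1
  refine ⟨j₀ + 1, fun j hj => ?_⟩
  have h2 := hj₀ j (by omega)
  have hBj : (0 : ℝ) < (B : ℝ) ^ j := by positivity
  rw [div_lt_div_iff₀ hBj (by positivity), one_mul] at h2
  have h3 : ((W * (j + 1) : ℕ) : ℝ) ^ E ≤ (B : ℝ) ^ j := by
    calc ((W * (j + 1) : ℕ) : ℝ) ^ E ≤ ((2 * W : ℝ) * j) ^ E := by
          apply pow_le_pow_left₀ (Nat.cast_nonneg _)
          push_cast
          have h4 : (1 : ℝ) ≤ j := by exact_mod_cast (by omega : 1 ≤ j)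
          have h5 : (0 : ℝ) ≤ W := Nat.cast_nonneg _
          nlinarith
      _ = (j : ℝ) ^ E * (2 * W : ℝ) ^ E := by rw [mul_pow]; ring
      _ ≤ (j : ℝ) ^ E * ((2 * W : ℝ) ^ E + 1) := by
          apply mul_le_mul_of_nonneg_left _ (by positivity)
          linarith
      _ ≤ _ := h2.le
  exact_mod_cast h3

set_option maxHeartbeats 4000000 in
/-- **the solutions in the translates of an automatic set** -/
theorem leh_aut [Fintype σ] (b : ℕ) (hb : 2 ≤ b) (M : DFA ℕ σ)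
    (hSp : ∀ k : ℕ, ∃ᶠ N : ℕ in Filter.atTop, Real.log N ^ k < (cnt b M N (fun _ => True) : ℝ)) :
    ∃ (c : ℝ) (N₀ : ℕ), 0 < c ∧ ∀ N : ℕ, N₀ ≤ N → ∀ h : ℤ, (Nat.log 2 (N + h.natAbs) : ℝ) ≤ (N : ℝ) ^ c →
      (cnt b M N (fun n => ∃ l : ℕ, (l : ℤ) = n + h ∧ Leh l) : ℝ) ≤ cnt b M N (fun _ => True) * (N : ℝ) ^ (-c) := by
  classical
  obtain ⟨B, δ, F, s0, κ₀, C, ρ, k, hB2, hρ, hG, hrun⟩ := setup b hb M
    (fun k => (hSp k).mono (fun N hN => by
      have e1 : cnt b M N (fun _ => True) = ((range N).filter fun v => Nat.digits b v ∈ M.accepts).card := by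
        unfold cnt
        congr 1
        ext v
        simp only [mem_filter, and_true]
      rwa [e1] at hN))
  have hC1 := hG.C1
  have hC0 : 0 < C := by linarith
  obtain ⟨A₀, hA₀⟩ := unif B hB2 δ F s0 κ₀ C ρ k hG hρ
  obtain ⟨m₁, hm₁⟩ := t0_exists B k hB2 C
  obtain ⟨K₀, hK₀0, hK₀⟩ := sqf_sum B
  obtain ⟨a, N₁, _, hgr⟩ := growth b hb M hSp
  have hBr : (1 : ℝ) < B := by exact_mod_cast (by omega : 1 < B)
  have hB0 : (0 : ℝ) < B := by linarith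
  -- the constants
  obtain ⟨β, hβ⟩ : ∃ β : ℝ, β = (B : ℝ) ^ (1 / 64 : ℝ) := ⟨_, rfl⟩
  have hβ64 : β ^ 64 = B := by
    rw [hβ, ← Real.rpow_natCast, ← Real.rpow_mul hB0.le]
    norm_num
  have hβ1 : 1 < β := by
    rw [hβ]
    exact Real.one_lt_rpow hBr (by norm_num)
  have hβ0 : 0 < β := by linarith
  have hβB : β ≤ B := by
    calc β = β ^ 1 := (pow_one β).symm
      _ ≤ β ^ 64 := pow_le_pow_right₀ hβ1.le (by norm_num)
      _ = B := hβ64
  obtain ⟨z, hz⟩ : ∃ z : ℝ, z = (β - 1) / (2 * B) := ⟨_, rfl⟩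
  have hz0 : 0 < z := by rw [hz]; exact div_pos (by linarith) (by linarith)
  have hz1 : z ≤ 1 := by
    rw [hz, div_le_one (by linarith)]
    linarith
  have hz2 : 1 + 2 * B * z = β := by
    rw [hz]
    field_simp
    ring
  obtain ⟨R, hR⟩ := pow_unbounded_of_one_lt (1 / z) hβ1
  have hR1 : 1 ≤ z * β ^ (R + 1) := by
    have h1 : β ^ R ≤ β ^ (R + 1) := pow_le_pow_right₀ hβ1.le (by omega)
    have h2 : 1 / z ≤ β ^ (R + 1) := hR.le.trans h1
    rw [div_le_iff₀ hz0] at h2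
    linarith
  have hg0 : (1 / 2 : ℝ) ^ B ≤ 1 / B := by
    rw [one_div_pow]
    apply one_div_le_one_div_of_le hB0
    have := (Nat.lt_two_pow_self (n := B)).le
    exact_mod_cast this
  obtain ⟨V, hV⟩ : ∃ V, V = 2 * (A₀ + 1) * (3 * B + 1) * (R + 1) := ⟨_, rfl⟩
  have hV1 : 1 ≤ V := by rw [hV]; exact Nat.succ_le_of_lt (by positivity)
  obtain ⟨W, hW⟩ : ∃ W, W = 16 * V * (a + 1) := ⟨_, rfl⟩
  have hW1 : 16 * V ≤ W := by rw [hW]; nlinarith
  have hWa : 2 * a + 1 ≤ W := by rw [hW]; nlinarith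
  obtain ⟨j₁, hj₁⟩ := poly_exp B hB2 W ((k + 2) * B)
  -- the constants in the bounds
  obtain ⟨C₁, hC₁⟩ : ∃ C₁ : ℝ, C₁ = 2 * ((2 * |(B.factorial : ℤ)| + 1 : ℤ) * β ^ 2) + 1 := ⟨_, rfl⟩
  have hC₁0 : 0 < C₁ := by
    rw [hC₁]
    have : (0 : ℝ) ≤ ((2 * |(B.factorial : ℤ)| + 1 : ℤ) : ℝ) := by
      have h1 : (0 : ℤ) ≤ 2 * |(B.factorial : ℤ)| + 1 := by positivity
      exact_mod_cast h1
    positivity
  obtain ⟨C₃, hC₃⟩ : ∃ C₃ : ℝ, C₃ = C * K₀ * C₁ + B.factorial := ⟨_, rfl⟩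
  have hC₃0 : 0 < C₃ := by rw [hC₃]; positivity
  obtain ⟨τ, hτ⟩ : ∃ τ : ℝ, τ = β ^ 8 := ⟨_, rfl⟩
  have hτ1 : 1 < τ := by rw [hτ]; exact one_lt_pow₀ hβ1 (by norm_num)
  have hτ0 : 0 < τ := by linarith
  have hτ8 : τ ^ 8 = B := by rw [hτ, ← pow_mul]; exact hβ64
  obtain ⟨j₂, hj₂⟩ := pow_unbounded_of_one_lt (C₃ * τ + 2 * B.factorial * (τ + 2)) hτ1
  have hWr : (0 : ℝ) < W := by exact_mod_cast (by omega : 0 < W)
  obtain ⟨c, hc⟩ : ∃ c : ℝ, c = 1 / (8 * W) := ⟨_, rfl⟩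
  have hc0 : 0 < c := by rw [hc]; positivity
  refine ⟨c, B ^ (W * (j₁ + j₂ + κ₀ + m₁ + 2)) + N₁, hc0, fun N hN h hlog => ?_⟩
  have hN0 : N ≠ 0 := by
    have : 0 < B ^ (W * (j₁ + j₂ + κ₀ + m₁ + 2)) := by positivity
    omega
  obtain ⟨m, hm⟩ : ∃ m, m = Nat.log B N := ⟨_, rfl⟩
  have hm0 : W * (j₁ + j₂ + κ₀ + m₁ + 2) ≤ m := by
    rw [hm]
    exact Nat.le_log_of_pow_le (by omega) (by omega)
  have hmN : B ^ m ≤ N := by rw [hm]; exact Nat.pow_log_le_self B hN0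
  have hNm : N < B ^ (m + 1) := by rw [hm]; exact Nat.lt_pow_succ_log_self (by omega) N
  obtain ⟨j, hj⟩ : ∃ j, j = (m + 1) / W := ⟨_, rfl⟩
  have hjm : j * W ≤ m + 1 := by rw [hj]; exact Nat.div_mul_le_self _ _
  have hjm2 : m + 1 < W * (j + 1) := by rw [hj]; exact Nat.lt_mul_div_succ _ (by omega)
  have hjbig : j₁ + j₂ + κ₀ + m₁ + 2 ≤ j := by
    rw [hj, Nat.le_div_iff_mul_le (by omega), mul_comm]
    omega
  have hmbig : κ₀ + m₁ ≤ m := by
    have : 1 * (j₁ + j₂ + κ₀ + m₁ + 2) ≤ W * (j₁ + j₂ + κ₀ + m₁ + 2) := Nat.mul_le_mul_right _ (by omega)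
    omega
  obtain ⟨t₀, ht1, ht2⟩ := hm₁ (m + 1) (by omega)
  have hAcc : ∀ n, Ac B δ F n s0 = cnt b M (B ^ n) (fun _ => True) := by
    intro n
    rw [Ac_eq B (by omega), ← sum_filter, sum_const, nsmul_eq_mul, mul_one]
    unfold cnt
    congr 2
    ext v
    simp only [mem_filter, mem_range, and_true]
    exact ⟨fun h => ⟨h.1, (hrun n v h.1).1 h.2⟩, fun h => ⟨h.1, (hrun n v h.1).2 h.2⟩⟩
  have hpos : 0 < Ac B δ F (m + 1) s0 := by
    have h1 := hG.low (m + 1) (by omega)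
    have h2 : 0 < ρ ^ (m + 1) := by positivity
    by_contra hcon
    push Not at hcon
    have h3 : C * Ac B δ F (m + 1) s0 ≤ 0 := mul_nonpos_of_nonneg_of_nonpos (by linarith) hcon
    linarith
  have ht3 : t₀ ≤ 8 * j + 1 := by
    have h1 : B ^ t₀ ≤ B ^ j := by
      calc B ^ t₀ ≤ (m + 1) ^ ((k + 2) * B) := ht2
        _ ≤ (W * (j + 1)) ^ ((k + 2) * B) := Nat.pow_le_pow_left hjm2.le _
        _ ≤ B ^ j := hj₁ j (by omega)
    have h2 := (Nat.pow_le_pow_iff_right (by omega : 1 < B)).1 h1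
    omega
  -- the weights
  have hwn : ∀ i ∈ range (B ^ (m + 1)), 0 ≤ mixw B δ F s0 (m + 1) 1 i := by
    intro u _
    unfold mixw
    rw [sub_self, zero_mul, zero_add, one_mul]
    split_ifs
    · positivity
    · exact le_rfl
  have hDk : Dk B (B.factorial : ℤ) A₀ (m + 1) t₀ (1 / 2) 1
      (ph (range (B ^ (m + 1))) (mixw B δ F s0 (m + 1) 1) (fun u : ℕ => (u : ℤ))) := by
    refine ⟨fun θ => ?_, fun θ n hn hfar => ?_⟩
    · have h1 := mixw_sum B hB2 δ F s0 (m + 1) 1 hpos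
      unfold ph
      refine (norm_sum_le _ _).trans ?_
      refine le_trans ?_ h1.le
      apply sum_le_sum
      intro u hu
      rw [norm_mul, norm_ee, mul_one, Complex.norm_real, Real.norm_eq_abs, abs_of_nonneg (hwn u hu)]
    · rw [one_mul]
      exact hA₀ (m + 1) (by omega) hpos t₀ ht1 θ n hn hfar
  obtain ⟨X, hX⟩ : ∃ X : ℕ → Prop, X = fun (u : ℕ) => ∃ l : ℕ, (l : ℤ) = (u : ℤ) + h ∧ Leh l ∧ B.factorial * B ^ j ≤ l ∧
      2 * (B.factorial * (Nat.log 2 l + 1)) < B ^ j := ⟨_, rfl⟩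
  have hVK : V * (8 * j + 1) ≤ m + 1 := by
    calc V * (8 * j + 1) ≤ V * (16 * j) := Nat.mul_le_mul_left _ (by omega)
      _ = j * (16 * V) := by ring
      _ ≤ j * W := Nat.mul_le_mul_left _ hW1
      _ ≤ m + 1 := hjm
  have hSb : ∀ T : Finset ℕ, (∀ q ∈ T, 1 ≤ q ∧ q ^ 2 < B ^ (8 * j + 1) ∧ Nat.Coprime B q) →
      ∑ q ∈ T, Sq (ph (range (B ^ (m + 1))) (mixw B δ F s0 (m + 1) 1) (fun u : ℕ => (u : ℤ))) q ≤ C₁ * τ ^ (2 * j) := by
    intro T hT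
    have h1 := all_sum B hB2 (B.factorial : ℤ) (by exact_mod_cast B.factorial_ne_zero) A₀ (m + 1) t₀ (1 / 2) 1 (by norm_num)
      zero_le_one _ hDk β z hβ1 hz0 hz1 hz2 R hR1 B (by omega) hg0 V hV (8 * j + 1) (by omega) hVK ht3 T hT
    refine h1.trans ?_
    have e1 : β ^ (2 * (8 * j + 1)) = β ^ 2 * τ ^ (2 * j) := by rw [hτ]; ring
    have e2 : (1 : ℝ) ≤ τ ^ (2 * j) := one_le_pow₀ hτ1.le
    rw [e1, hC₁]
    nlinarith
  have hmain := weight_bound B j hB2 (range (B ^ (m + 1))) (mixw B δ F s0 (m + 1) 1) hwn (C₁ * τ ^ (2 * j)) K₀ (by positivity)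
    hSb hK₀ h X (fun u hu => by rw [hX] at hu; exact hu) (by omega)
  have hsum := sum_mixw b M B δ F s0 (m + 1) (hrun (m + 1)) (fun _ => 1) (fun _ => Or.inr rfl) X
  simp only [mul_one] at hsum
  rw [hsum, mul_one_div, div_le_iff₀ hpos] at hmain
  -- the square root
  have hsqrt : Real.sqrt ((B : ℝ) ^ j) = τ ^ (4 * j) := by
    rw [← hτ8, Real.sqrt_eq_iff_mul_self_eq (by positivity) (by positivity)]
    ring
  rw [hsqrt] at hmain
  have hstep : Ac B δ F (m + 1) s0 ≤ C * cnt b M N (fun _ => True) := by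
    refine (hG.step m (by omega) s0).trans ?_
    apply mul_le_mul_of_nonneg_left _ hC0.le
    rw [hAcc m, Nat.cast_le]
    exact cnt_mono b M hmN (fun _ _ h => h)
  obtain ⟨x, hx⟩ : ∃ x : ℝ, x = cnt b M N (fun _ => True) := ⟨_, rfl⟩
  have hx0 : 0 ≤ x := by rw [hx]; exact Nat.cast_nonneg _
  rw [← hx] at hstep ⊢
  have hτj : 0 < τ ^ j := by positivity
  -- the large solutions
  have hbig : (cnt b M (B ^ (m + 1)) X : ℝ) ≤ C * K₀ * C₁ * x / τ ^ (2 * j) := by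
    have h1 : cnt b M (B ^ (m + 1)) X ≤ cnt b M (B ^ (m + 1)) (fun u => True ∧ X u) :=
      cnt_mono b M le_rfl (fun _ _ h => ⟨trivial, h⟩)
    calc (cnt b M (B ^ (m + 1)) X : ℝ) ≤ cnt b M (B ^ (m + 1)) (fun u => True ∧ X u) := by exact_mod_cast h1
      _ ≤ C₁ * τ ^ (2 * j) * (K₀ / τ ^ (4 * j)) * Ac B δ F (m + 1) s0 := hmain
      _ ≤ C₁ * τ ^ (2 * j) * (K₀ / τ ^ (4 * j)) * (C * x) := mul_le_mul_of_nonneg_left hstep (by positivity)
      _ = _ := by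
          rw [show 4 * j = 2 * j + 2 * j by ring, pow_add]
          field_simp
  -- the small solutions
  have hNa := hgr N (by omega)
  rw [← hx] at hNa
  have hsmall : (B : ℝ) ^ (2 * j) ≤ x := by
    by_contra hcon
    push Not at hcon
    have ha0 : a ≠ 0 := by
      intro h0
      rw [h0, pow_zero] at hNa
      have : (2 : ℝ) ≤ N := by
        have h1 : B ^ 1 ≤ B ^ m := Nat.pow_le_pow_right (by omega) (by
          have : 1 * (j₁ + j₂ + κ₀ + m₁ + 2) ≤ W * (j₁ + j₂ + κ₀ + m₁ + 2) := Nat.mul_le_mul_right _ (by omega)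
          omega)
        have h2 : 2 ≤ N := by omega
        exact_mod_cast h2
      linarith
    have h1 : x ^ a < ((B : ℝ) ^ (2 * j)) ^ a := pow_lt_pow_left₀ hcon hx0 ha0
    have h2 : ((B : ℝ) ^ (2 * j)) ^ a ≤ N := by
      have h3 : (B ^ (2 * j)) ^ a ≤ N := by
        calc (B ^ (2 * j)) ^ a = B ^ (2 * j * a) := by rw [← pow_mul]
          _ ≤ B ^ m := by
              apply Nat.pow_le_pow_right (by omega)
              have h4 : j * (2 * a + 1) ≤ j * W := Nat.mul_le_mul_left _ hWa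
              have h5 : j * (2 * a + 1) = 2 * j * a + j := by ring
              omega
          _ ≤ N := hmN
      exact_mod_cast h3
    linarith
  have hsplit := cnt_split b M N (fun n => ∃ l : ℕ, (l : ℤ) = n + h ∧ Leh l) X
    ((range (B.factorial * B ^ j)).image (fun (l : ℕ) => ((l : ℤ) - h).toNat)) (by
    rintro n hn ⟨l, hl, hL⟩
    by_cases hlb : B.factorial * B ^ j ≤ l
    · left
      rw [hX]
      refine ⟨l, hl, hL, hlb, ?_⟩
      have h1 : l ≤ N + h.natAbs := by omega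
      have h2 : (Nat.log 2 l : ℝ) ≤ (N : ℝ) ^ c := by
        refine le_trans ?_ hlog
        exact_mod_cast Nat.log_mono_right h1
      have h3 : (N : ℝ) ^ c ≤ τ ^ (j + 1) := by
        have h4 : (N : ℝ) ≤ (τ ^ (j + 1)) ^ (8 * W) := by
          have h5 : N ≤ B ^ (W * (j + 1)) := hNm.le.trans (Nat.pow_le_pow_right (by omega) hjm2.le)
          calc (N : ℝ) ≤ (B : ℝ) ^ (W * (j + 1)) := by exact_mod_cast h5
            _ = (τ ^ 8) ^ (W * (j + 1)) := by rw [hτ8]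
            _ = _ := by rw [← pow_mul, ← pow_mul]; congr 1; ring
        calc (N : ℝ) ^ c ≤ ((τ ^ (j + 1)) ^ (8 * W)) ^ c := Real.rpow_le_rpow (Nat.cast_nonneg _) h4 hc0.le
          _ = τ ^ (j + 1) := by
              rw [← Real.rpow_natCast (τ ^ (j + 1)) (8 * W), ← Real.rpow_mul (by positivity), hc]
              push_cast
              rw [mul_one_div_cancel (by positivity), Real.rpow_one]
      have h5 : 2 * (B.factorial : ℝ) * (τ + 2) ≤ τ ^ j := by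
        have h6 : τ ^ j₂ ≤ τ ^ j := pow_le_pow_right₀ hτ1.le (by omega)
        have h7 : 0 < C₃ * τ := by positivity
        linarith
      have h8 : (2 : ℝ) * (B.factorial * (Nat.log 2 l + 1)) < (B : ℝ) ^ j := by
        have hf : (0 : ℝ) < B.factorial := by exact_mod_cast B.factorial_pos
        have h9 : (1 : ℝ) ≤ τ ^ j := one_le_pow₀ hτ1.le
        have h10 : (1 : ℝ) < τ ^ j := one_lt_pow₀ hτ1 (by omega)
        calc (2 : ℝ) * (B.factorial * (Nat.log 2 l + 1)) ≤ 2 * (B.factorial * (τ ^ (j + 1) + 1)) := by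
              apply mul_le_mul_of_nonneg_left _ (by norm_num)
              apply mul_le_mul_of_nonneg_left _ hf.le
              linarith
          _ ≤ (2 * B.factorial * (τ + 2)) * τ ^ j := by
              rw [pow_succ]
              nlinarith
          _ ≤ τ ^ j * τ ^ j := mul_le_mul_of_nonneg_right h5 hτj.le
          _ < τ ^ (8 * j) := by
              rw [← pow_add]
              apply pow_lt_pow_right₀ hτ1
              omega
          _ = (B : ℝ) ^ j := by rw [pow_mul, hτ8]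
      exact_mod_cast h8
    · right
      rw [mem_image]
      refine ⟨l, by rw [mem_range]; omega, ?_⟩
      omega)
  have hXm : cnt b M N X ≤ cnt b M (B ^ (m + 1)) X := cnt_mono b M hNm.le (fun _ _ h => h)
  have hT : ((range (B.factorial * B ^ j)).image (fun (l : ℕ) => ((l : ℤ) - h).toNat)).card ≤ B.factorial * B ^ j := by
    refine card_image_le.trans ?_
    rw [card_range]
  have htot : (cnt b M N (fun n => ∃ l : ℕ, (l : ℤ) = n + h ∧ Leh l) : ℝ) ≤ C₃ * x / τ ^ (2 * j) := by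
    have h1 : (cnt b M N (fun n => ∃ l : ℕ, (l : ℤ) = n + h ∧ Leh l) : ℝ) ≤ cnt b M (B ^ (m + 1)) X + (B.factorial * B ^ j : ℕ) := by
      exact_mod_cast hsplit.trans (Nat.add_le_add hXm hT)
    have h2 : ((B.factorial * B ^ j : ℕ) : ℝ) ≤ B.factorial * x / τ ^ (2 * j) := by
      rw [le_div_iff₀ (by positivity)]
      push_cast
      rw [mul_assoc]
      apply mul_le_mul_of_nonneg_left _ (Nat.cast_nonneg _)
      refine le_trans ?_ hsmall
      rw [two_mul, pow_add (B : ℝ)]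
      apply mul_le_mul_of_nonneg_left _ (by positivity)
      calc τ ^ (j + j) ≤ τ ^ (8 * j) := pow_le_pow_right₀ hτ1.le (by omega)
        _ = (B : ℝ) ^ j := by rw [pow_mul, hτ8]
    calc (cnt b M N (fun n => ∃ l : ℕ, (l : ℤ) = n + h ∧ Leh l) : ℝ) ≤ C * K₀ * C₁ * x / τ ^ (2 * j) + B.factorial * x / τ ^ (2 * j) := by
          linarith
      _ = _ := by rw [hC₃]; ring
  refine htot.trans ?_
  -- the final comparison
  have h3 : (N : ℝ) ^ c ≤ τ ^ (j + 1) := by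
    have h4 : (N : ℝ) ≤ (τ ^ (j + 1)) ^ (8 * W) := by
      have h5 : N ≤ B ^ (W * (j + 1)) := hNm.le.trans (Nat.pow_le_pow_right (by omega) hjm2.le)
      calc (N : ℝ) ≤ (B : ℝ) ^ (W * (j + 1)) := by exact_mod_cast h5
        _ = (τ ^ 8) ^ (W * (j + 1)) := by rw [hτ8]
        _ = _ := by rw [← pow_mul, ← pow_mul]; congr 1; ring
    calc (N : ℝ) ^ c ≤ ((τ ^ (j + 1)) ^ (8 * W)) ^ c := Real.rpow_le_rpow (Nat.cast_nonneg _) h4 hc0.le
      _ = τ ^ (j + 1) := by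
          rw [← Real.rpow_natCast (τ ^ (j + 1)) (8 * W), ← Real.rpow_mul (by positivity), hc]
          push_cast
          rw [mul_one_div_cancel (by positivity), Real.rpow_one]
  have hNp : (0 : ℝ) < (N : ℝ) ^ c := Real.rpow_pos_of_pos (by exact_mod_cast Nat.pos_of_ne_zero hN0) c
  rw [Real.rpow_neg (Nat.cast_nonneg _), ← div_eq_mul_inv, div_le_div_iff₀ (by positivity) hNp]
  have h6 : C₃ * τ ≤ τ ^ j := by
    have h7 : τ ^ j₂ ≤ τ ^ j := pow_le_pow_right₀ hτ1.le (by omega)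
    have hf : (0 : ℝ) < B.factorial := by exact_mod_cast B.factorial_pos
    have h8 : 0 < 2 * (B.factorial : ℝ) * (τ + 2) := by positivity
    linarith
  calc C₃ * x * (N : ℝ) ^ c ≤ C₃ * x * τ ^ (j + 1) := mul_le_mul_of_nonneg_left h3 (by positivity)
    _ = x * ((C₃ * τ) * τ ^ j) := by rw [pow_succ]; ring
    _ ≤ x * (τ ^ j * τ ^ j) := by
        apply mul_le_mul_of_nonneg_left _ hx0
        exact mul_le_mul_of_nonneg_right h6 hτj.le
    _ = x * τ ^ (2 * j) := by rw [two_mul, pow_add]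

end Pool.Agent.Run7.h560.LM
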